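import Mathlib

set_option autoImplicit false

/-! # Colouring unit circular arcs with max-load many colours -/

namespace Pool.Agent.Results.MP_7d4b8e_co.PhantomArcs

open Finset

/-- a unit arc of the circle `ℝ/lam ℤ`: the image of some half-open interval `[x, x + 1)` -/
def IsUnitArc (lam : ℝ) (A : Set (AddCircle lam)) : Prop :=
  ∃ x : ℝ, A = (fun t : ℝ => (t : AddCircle lam)) '' Set.Ico x (x + 1)

open Classical in
/-- the number of arcs of the finite set `F` which contain the point `p` -/
noncomputable def loadAt {lam : ℝ} (F : Finset (Set (AddCircle lam))) (p : AddCircle lam) : ℕ :=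
  (F.filter (fun A => p ∈ A)).card

/-- the max load: the largest number of arcs of `F` with a common point -/
noncomputable def maxLoad {lam : ℝ} (F : Finset (Set (AddCircle lam))) : ℕ :=
  sSup (Set.range (loadAt F))

/-- `F` has a proper colouring with `l` colours, that is, its chromatic number is at most `l` -/
def Colourable {lam : ℝ} (F : Finset (Set (AddCircle lam))) (l : ℕ) : Prop :=
  ∃ c : Set (AddCircle lam) → ℕ, (∀ A ∈ F, c A < l) ∧
    ∀ A ∈ F, ∀ A' ∈ F, A ≠ A' → (A ∩ A').Nonempty → c A ≠ c A'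

theorem bdd {lam : ℝ} (F : Finset (Set (AddCircle lam))) :
    BddAbove (Set.range (loadAt F)) := by
  classical
  refine ⟨F.card, ?_⟩
  rintro _ ⟨p, rfl⟩
  exact card_filter_le _ _

theorem loadAt_le {lam : ℝ} (F : Finset (Set (AddCircle lam))) (p : AddCircle lam) :
    loadAt F p ≤ maxLoad F := le_csSup (bdd F) ⟨p, rfl⟩

theorem exists_start {lam : ℝ} (hlam : 0 < lam) {A : Set (AddCircle lam)}
    (hA : IsUnitArc lam A) : ∃ s : ℝ, 0 ≤ s ∧ s < lam ∧
      A = (fun t : ℝ => (t : AddCircle lam)) '' Set.Ico s (s + 1) := by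
  obtain ⟨x, rfl⟩ := hA
  have h1 := toIcoMod_mem_Ico hlam 0 x
  rw [zero_add] at h1
  refine ⟨toIcoMod hlam 0 x, h1.1, h1.2, ?_⟩
  have h2 : x - toIcoDiv hlam 0 x • lam = toIcoMod hlam 0 x := self_sub_toIcoDiv_zsmul hlam 0 x
  have h3 : ∀ t : ℝ, ((t - toIcoDiv hlam 0 x • lam : ℝ) : AddCircle lam) = (t : AddCircle lam) := by
    intro t
    rw [AddCircle.coe_sub, AddCircle.coe_zsmul, AddCircle.coe_period, smul_zero, sub_zero]
  ext p
  constructor
  · rintro ⟨t, ht, rfl⟩
    refine ⟨t - toIcoDiv hlam 0 x • lam, ⟨?_, ?_⟩, h3 t⟩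
    · linarith [ht.1]
    · linarith [ht.2]
  · rintro ⟨t, ht, rfl⟩
    refine ⟨t + toIcoDiv hlam 0 x • lam, ⟨?_, ?_⟩, ?_⟩
    · linarith [ht.1]
    · linarith [ht.2]
    · have := h3 (t + toIcoDiv hlam 0 x • lam)
      rw [add_sub_cancel_right] at this
      exact this.symm

/-- two arcs whose starts in `[0, lam)` are `s < s'` and which intersect -/
theorem meet {lam : ℝ} (hlam : 1 < lam) {s s' : ℝ} (h0 : 0 ≤ s) (hlt : s < s')
    (h1 : s' < lam) {p : AddCircle lam}
    (hp : p ∈ (fun t : ℝ => (t : AddCircle lam)) '' Set.Ico s (s + 1))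
    (hp' : p ∈ (fun t : ℝ => (t : AddCircle lam)) '' Set.Ico s' (s' + 1)) :
    s' < s + 1 ∨ s + lam < s' + 1 := by
  obtain ⟨t, ⟨ht1, ht2⟩, rfl⟩ := hp
  obtain ⟨t', ⟨ht1', ht2'⟩, h⟩ := hp'
  simp only at h
  have h2 : ((t' - t : ℝ) : AddCircle lam) = 0 := by
    rw [AddCircle.coe_sub, h, sub_self]
  rw [AddCircle.coe_eq_zero_iff] at h2
  obtain ⟨n, hn⟩ := h2
  rw [zsmul_eq_mul] at hn
  have hn1 : n < 2 := by
    by_contra hcon
    push Not at hcon
    have : (2 : ℝ) ≤ n := by exact_mod_cast hcon
    nlinarith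
  have hn2 : -1 < n := by
    by_contra hcon
    push Not at hcon
    have : (n : ℝ) ≤ -1 := by exact_mod_cast hcon
    nlinarith
  obtain rfl | rfl : n = 0 ∨ n = 1 := by omega
  · left
    rw [Int.cast_zero, zero_mul] at hn
    linarith
  · right
    rw [Int.cast_one, one_mul] at hn
    linarith

theorem core {lam : ℝ} (hlam : 1 < lam) (F : Finset (Set (AddCircle lam)))
    (hF : ∀ A ∈ F, IsUnitArc lam A) (L : ℕ) (hL : ∀ p, loadAt F p ≤ L) (hd : L ∣ F.card) :
    Colourable F L := by
  classical
  choose! s hs0 hs1 hsA using fun A (hA : A ∈ F) => exists_start (by linarith) (hF A hA)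
  have hinj : ∀ A ∈ F, ∀ A' ∈ F, s A = s A' → A = A' := by
    intro A hA A' hA' h
    rw [hsA A hA, hsA A' hA', h]
  have hmem : ∀ A ∈ F, ∀ x : ℝ, s A ≤ x → x < s A + 1 → (x : AddCircle lam) ∈ A := by
    intro A hA x h1 h2
    rw [hsA A hA]
    exact ⟨x, ⟨h1, h2⟩, rfl⟩
  have hLpos : ∀ A ∈ F, 0 < L := by
    intro A hA
    refine lt_of_lt_of_le ?_ (hL (s A : ℝ))
    exact card_pos.2 ⟨A, mem_filter.2 ⟨hA, hmem A hA (s A) le_rfl (by linarith)⟩⟩
  -- the key fact for two arcs in increasing order
  have key : ∀ A ∈ F, ∀ A' ∈ F, s A < s A' → (A ∩ A').Nonempty →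
      (F.filter (fun Z => s Z < s A)).card % L ≠ (F.filter (fun Z => s Z < s A')).card % L := by
    intro A hA A' hA' hlt hne
    obtain ⟨p, hp, hp'⟩ := hne
    have hp1 := hp
    have hp1' := hp'
    rw [hsA A hA] at hp1
    rw [hsA A' hA'] at hp1'
    have hL0 := hLpos A hA
    -- the numbers of arcs before, between and after
    have hab : (F.filter (fun Z => s Z < s A')).card = (F.filter (fun Z => s Z < s A)).card +
        (F.filter (fun Z => s A ≤ s Z ∧ s Z < s A')).card := by
      rw [← card_union_of_disjoint]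
      · congr 1
        ext Z
        simp only [mem_union, mem_filter]
        constructor
        · rintro ⟨h1, h2⟩
          rcases lt_or_ge (s Z) (s A) with h3 | h3
          · exact Or.inl ⟨h1, h3⟩
          · exact Or.inr ⟨h1, h3, h2⟩
        · rintro (⟨h1, h2⟩ | ⟨h1, h2, h3⟩)
          · exact ⟨h1, h2.trans hlt⟩
          · exact ⟨h1, h3⟩
      · rw [disjoint_left]
        intro Z hZ hZ'
        rw [mem_filter] at hZ hZ'
        exact absurd hZ.2 (not_lt.2 hZ'.2.1)
    have hd1 : 1 ≤ (F.filter (fun Z => s A ≤ s Z ∧ s Z < s A')).card :=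
      card_pos.2 ⟨A, mem_filter.2 ⟨hA, le_rfl, hlt⟩⟩
    have hN : (F.filter (fun Z => s Z < s A')).card +
        (F.filter (fun Z => s A' ≤ s Z)).card = F.card := by
      have := card_filter_add_card_filter_not (s := F) (fun Z => s Z < s A')
      simp only [not_lt] at this
      exact this
    have hN1 : 1 ≤ (F.filter (fun Z => s A' ≤ s Z)).card :=
      card_pos.2 ⟨A', mem_filter.2 ⟨hA', le_rfl⟩⟩
    rcases meet hlam (hs0 A hA) hlt (hs1 A' hA') hp1 hp1' with hcase | hcase
    · -- all the arcs from `A` to `A'` contain the start of `A'`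
      have h1 : insert A' (F.filter (fun Z => s A ≤ s Z ∧ s Z < s A')) ⊆
          F.filter (fun Z => ((s A' : ℝ) : AddCircle lam) ∈ Z) := by
        intro Z hZ
        rw [mem_insert, mem_filter] at hZ
        rw [mem_filter]
        rcases hZ with rfl | ⟨h2, h3, h4⟩
        · exact ⟨hA', hmem _ hA' _ le_rfl (by linarith)⟩
        · exact ⟨h2, hmem _ h2 _ h4.le (by linarith)⟩
      have h2 := (card_le_card h1).trans (hL ((s A' : ℝ) : AddCircle lam))
      rw [card_insert_of_notMem (by simp)] at h2
      intro heq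
      rw [hab] at heq
      have h3 := (Nat.modEq_iff_dvd' (Nat.le_add_right _ _)).1 heq
      rw [Nat.add_sub_cancel_left] at h3
      have h4 := Nat.le_of_dvd hd1 h3
      omega
    · -- all the arcs from `A'` round to `A` contain the start of `A`
      have hs1' := hs1 A' hA'
      have h1 : insert A (F.filter (fun Z => s Z < s A)) ∪ F.filter (fun Z => s A' ≤ s Z) ⊆
          F.filter (fun Z => ((s A : ℝ) : AddCircle lam) ∈ Z) := by
        intro Z hZ
        rw [mem_union, mem_insert, mem_filter, mem_filter] at hZ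
        rw [mem_filter]
        rcases hZ with (rfl | ⟨h2, h3⟩) | ⟨h2, h3⟩
        · exact ⟨hA, hmem _ hA _ le_rfl (by linarith)⟩
        · exact ⟨h2, hmem _ h2 _ h3.le (by linarith [hs0 Z h2])⟩
        · refine ⟨h2, ?_⟩
          have h4 := hmem Z h2 (s A + lam) (by linarith [hs1 Z h2, hs0 A hA]) (by linarith)
          rwa [AddCircle.coe_add, AddCircle.coe_period, add_zero] at h4
      have h2 := (card_le_card h1).trans (hL ((s A : ℝ) : AddCircle lam))
      rw [card_union_of_disjoint, card_insert_of_notMem (by simp)] at h2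
      swap
      · rw [disjoint_left]
        intro Z hZ hZ'
        rw [mem_insert, mem_filter] at hZ
        rw [mem_filter] at hZ'
        rcases hZ with rfl | ⟨-, h3⟩
        · exact absurd hlt (not_lt.2 hZ'.2)
        · exact absurd (h3.trans hlt) (not_lt.2 hZ'.2)
      intro heq
      rw [hab] at heq
      have h3 := (Nat.modEq_iff_dvd' (Nat.le_add_right _ _)).1 heq
      rw [Nat.add_sub_cancel_left] at h3
      obtain ⟨q, hq⟩ := hd
      obtain ⟨j, hj⟩ := h3
      have h5 : L * j < L * q := by omega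
      have h6 : L * q < L * (j + 1) := by
        rw [mul_add, mul_one]
        omega
      have h7 := lt_of_mul_lt_mul_left h5 (Nat.zero_le _)
      have h8 := lt_of_mul_lt_mul_left h6 (Nat.zero_le _)
      omega
  refine ⟨fun A => (F.filter (fun Z => s Z < s A)).card % L, ?_, ?_⟩
  · intro A hA
    exact Nat.mod_lt _ (hLpos A hA)
  · intro A hA A' hA' hne hne'
    rcases lt_trichotomy (s A) (s A') with h | h | h
    · exact key A hA A' hA' h hne'
    · exact absurd (hinj A hA A' hA' h) hne
    · rw [Set.inter_comm] at hne'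
      exact (key A' hA' A hA h hne').symm

/-- positive answer -/
theorem positive {lam : ℝ} (hlam : 1 < lam) (F B : Finset (Set (AddCircle lam)))
    (hF : ∀ A ∈ F, IsUnitArc lam A) (hB : ∀ A ∈ B, IsUnitArc lam A) (hd : Disjoint F B)
    (hcard : maxLoad F ≤ B.card + 1) (hload : ∀ p, loadAt (F ∪ B) p ≤ maxLoad F) :
    Colourable F (maxLoad F) := by
  classical
  rcases Nat.eq_zero_or_pos (maxLoad F) with h0 | h0
  · -- no arcs
    have hemp : ∀ A ∈ F, False := by
      intro A hA
      obtain ⟨s, -, -, hs⟩ := exists_start (by linarith) (hF A hA)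
      have h1 : 1 ≤ loadAt F (s : AddCircle lam) := by
        refine card_pos.2 ⟨A, mem_filter.2 ⟨hA, ?_⟩⟩
        rw [hs]
        exact ⟨s, ⟨le_rfl, by linarith⟩, rfl⟩
      have := loadAt_le F (s : AddCircle lam)
      omega
    exact ⟨fun _ => 0, fun A hA => (hemp A hA).elim, fun A hA => (hemp A hA).elim⟩
  · -- add so many arcs that the total number is divisible by the load
    obtain ⟨r, hr1, hr2⟩ : ∃ r, r ≤ B.card ∧ maxLoad F ∣ F.card + r := by
      refine ⟨(maxLoad F - F.card % maxLoad F) % maxLoad F, ?_, ?_⟩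
      · have := Nat.mod_lt (maxLoad F - F.card % maxLoad F) h0
        omega
      · rw [Nat.dvd_iff_mod_eq_zero, Nat.add_mod, Nat.mod_mod]
        have h1 := Nat.mod_lt F.card h0
        rcases Nat.eq_zero_or_pos (F.card % maxLoad F) with h2 | h2
        · rw [h2, Nat.sub_zero, Nat.mod_self, Nat.zero_mod]
        · rw [Nat.mod_eq_of_lt (show maxLoad F - F.card % maxLoad F < maxLoad F by omega)]
          rw [Nat.add_sub_cancel' h1.le, Nat.mod_self]
    obtain ⟨B', hB', hcB'⟩ := exists_subset_card_eq hr1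
    have hd' : Disjoint F B' := disjoint_of_subset_right hB' hd
    obtain ⟨c, hc1, hc2⟩ := core hlam (F ∪ B') (by
      intro A hA
      rcases mem_union.1 hA with h | h
      · exact hF A h
      · exact hB A (hB' h)) (maxLoad F) (by
        intro p
        refine le_trans ?_ (hload p)
        exact card_le_card (filter_subset_filter _ (union_subset_union_right hB'))) (by
          rw [card_union_of_disjoint hd', hcB']
          exact hr2)
    exact ⟨c, fun A hA => hc1 A (mem_union_left _ hA), fun A hA A' hA' =>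
      hc2 A (mem_union_left _ hA) A' (mem_union_left _ hA')⟩

/-! ### Arcs that are allowed to belong to the family already -/

/-- the seven arcs starting at the multiples of `4/7` on the circle of circumference `4` -/
noncomputable def arc7 (i : ℕ) : Set (AddCircle (4 : ℝ)) :=
  (fun t : ℝ => (t : AddCircle (4 : ℝ))) '' Set.Ico (4 * (i : ℝ) / 7) (4 * (i : ℝ) / 7 + 1)

theorem mem_arc7 {i : ℕ} (hi : i < 7) {t : ℝ} (h0 : 0 ≤ t) (h1 : t < 4) :
    (t : AddCircle (4 : ℝ)) ∈ arc7 i ↔
      (4 * (i : ℝ) / 7 ≤ t ∧ t < 4 * (i : ℝ) / 7 + 1) ∨ t + 4 < 4 * (i : ℝ) / 7 + 1 := by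
  have hi' : (i : ℝ) ≤ 6 := by exact_mod_cast Nat.lt_succ_iff.1 hi
  constructor
  · rintro ⟨u, ⟨hu1, hu2⟩, hu⟩
    simp only at hu
    have h2 : ((u - t : ℝ) : AddCircle (4 : ℝ)) = 0 := by
      rw [AddCircle.coe_sub, hu, sub_self]
    rw [AddCircle.coe_eq_zero_iff] at h2
    obtain ⟨n, hn⟩ := h2
    rw [zsmul_eq_mul] at hn
    have hi0 : (0 : ℝ) ≤ i := Nat.cast_nonneg i
    have hn1 : n < 2 := by
      by_contra hcon
      push Not at hcon
      have : (2 : ℝ) ≤ n := by exact_mod_cast hcon
      linarith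
    have hn2 : -1 < n := by
      by_contra hcon
      push Not at hcon
      have : (n : ℝ) ≤ -1 := by exact_mod_cast hcon
      linarith
    obtain rfl | rfl : n = 0 ∨ n = 1 := by omega
    · left
      rw [Int.cast_zero, zero_mul] at hn
      constructor <;> linarith
    · right
      rw [Int.cast_one, one_mul] at hn
      linarith
  · rintro (h | h)
    · exact ⟨t, h, rfl⟩
    · refine ⟨t + 4, ⟨?_, h⟩, ?_⟩
      · linarith
      · simp only
        rw [AddCircle.coe_add, AddCircle.coe_period, add_zero]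

theorem start_mem {i j : ℕ} (hi : i < 7) (hj : j < 7) :
    ((4 * (j : ℝ) / 7 : ℝ) : AddCircle (4 : ℝ)) ∈ arc7 i ↔ j = i ∨ j = i + 1 ∨ j + 6 = i := by
  have hj' : (j : ℝ) ≤ 6 := by exact_mod_cast Nat.lt_succ_iff.1 hj
  rw [mem_arc7 hi (by positivity) (by linarith)]
  constructor
  · rintro (⟨h1, h2⟩ | h)
    · have h3 : i ≤ j := by
        have : (i : ℝ) ≤ j := by linarith
        exact_mod_cast this
      have h4 : j < i + 2 := by
        have : (j : ℝ) < i + 2 := by linarith
        exact_mod_cast this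
      omega
    · have h4 : j + 5 < i := by
        have : (j : ℝ) + 5 < i := by linarith
        exact_mod_cast this
      omega
  · rintro (rfl | rfl | rfl)
    · left
      constructor <;> linarith
    · left
      push_cast
      constructor <;> linarith
    · right
      push_cast
      linarith

theorem arc7_inj {i j : ℕ} (hi : i < 7) (hj : j < 7) (h : arc7 i = arc7 j) : i = j := by
  have h1 := (start_mem hi hi).2 (Or.inl rfl)
  have h2 := (start_mem hj hj).2 (Or.inl rfl)
  rw [h] at h1
  rw [← h] at h2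
  rw [start_mem hj hi] at h1
  rw [start_mem hi hj] at h2
  omega

open Classical in
/-- the family of the seven arcs -/
noncomputable def fam7 : Finset (Set (AddCircle (4 : ℝ))) := (range 7).image arc7

theorem fam7_load : maxLoad fam7 = 2 := by
  classical
  apply le_antisymm
  · refine csSup_le ⟨_, ⟨0, rfl⟩⟩ ?_
    rintro _ ⟨p, rfl⟩
    obtain ⟨t, ht, rfl⟩ : ∃ t : ℝ, t ∈ Set.Ico (0 : ℝ) 4 ∧ (t : AddCircle (4 : ℝ)) = p := by
      obtain ⟨x, rfl⟩ := QuotientAddGroup.mk_surjective p
      have h4 : (0 : ℝ) < 4 := by norm_num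
      have h1 := toIcoMod_mem_Ico h4 0 x
      rw [zero_add] at h1
      refine ⟨toIcoMod h4 0 x, h1, ?_⟩
      have h2 : x - toIcoDiv h4 0 x • (4 : ℝ) = toIcoMod h4 0 x := self_sub_toIcoDiv_zsmul h4 0 x
      rw [← h2, AddCircle.coe_sub, AddCircle.coe_zsmul, AddCircle.coe_period, smul_zero, sub_zero]
    have hu0 : 0 ≤ 7 * t / 4 := by linarith [ht.1]
    have hn1 := Nat.floor_le hu0
    have hn2 := Nat.lt_floor_add_one (7 * t / 4)
    set n := ⌊7 * t / 4⌋₊ with hn
    have hn3 : n < 7 := by
      have : (n : ℝ) < 7 := by linarith [ht.2]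
      exact_mod_cast this
    have hsub : fam7.filter (fun A => (t : AddCircle (4 : ℝ)) ∈ A) ⊆
        {arc7 n, arc7 ((n + 6) % 7)} := by
      intro A hA
      rw [mem_filter, fam7, mem_image] at hA
      obtain ⟨⟨i, hi, rfl⟩, hmem⟩ := hA
      rw [mem_range] at hi
      rw [mem_arc7 hi ht.1 ht.2] at hmem
      have : i = n ∨ i = (n + 6) % 7 := by
        rcases hmem with ⟨h1, h2⟩ | h
        · have h3 : i < n + 1 := by
            have : (i : ℝ) < n + 1 := by linarith
            exact_mod_cast this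
          have h4 : n < i + 2 := by
            have : (n : ℝ) < i + 2 := by linarith
            exact_mod_cast this
          omega
        · have h4 : n + 5 < i := by
            have : (n : ℝ) + 5 < i := by linarith
            exact_mod_cast this
          omega
      rw [mem_insert, mem_singleton]
      rcases this with rfl | rfl
      · exact Or.inl rfl
      · exact Or.inr rfl
    exact (card_le_card hsub).trans card_le_two
  · refine le_trans ?_ (loadAt_le fam7 ((4 * ((1 : ℕ) : ℝ) / 7 : ℝ) : AddCircle (4 : ℝ)))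
    have hsub : {arc7 0, arc7 1} ⊆ fam7.filter
        (fun A => ((4 * ((1 : ℕ) : ℝ) / 7 : ℝ) : AddCircle (4 : ℝ)) ∈ A) := by
      intro A hA
      rw [mem_insert, mem_singleton] at hA
      rw [mem_filter, fam7, mem_image]
      rcases hA with rfl | rfl
      · exact ⟨⟨0, by simp, rfl⟩, (start_mem (by norm_num) (by norm_num)).2 (by simp)⟩
      · exact ⟨⟨1, by simp, rfl⟩, (start_mem (by norm_num) (by norm_num)).2 (by simp)⟩
    have h2 : ({arc7 0, arc7 1} : Finset (Set (AddCircle (4 : ℝ)))).card = 2 :=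
      card_pair (fun h => by
        have := arc7_inj (by norm_num) (by norm_num) h
        omega)
    exact h2.ge.trans (card_le_card hsub)

theorem fam7_not : ¬ Colourable fam7 2 := by
  classical
  rintro ⟨c, hc1, hc2⟩
  have hmem : ∀ i, i < 7 → arc7 i ∈ fam7 := fun i hi =>
    mem_image.2 ⟨i, mem_range.2 hi, rfl⟩
  have hadj : ∀ i j, i < 7 → j < 7 → (j = i + 1 ∨ j + 6 = i) → c (arc7 i) ≠ c (arc7 j) := by
    intro i j hi hj h
    refine hc2 _ (hmem i hi) _ (hmem j hj) (fun h' => ?_) ?_
    · have := arc7_inj hi hj h'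
      omega
    · exact ⟨((4 * (j : ℝ) / 7 : ℝ) : AddCircle (4 : ℝ)), (start_mem hi hj).2 (Or.inr h),
        (start_mem hj hj).2 (Or.inl rfl)⟩
  have h0 := hc1 _ (hmem 0 (by norm_num))
  have h1 := hc1 _ (hmem 1 (by norm_num))
  have h2 := hc1 _ (hmem 2 (by norm_num))
  have h3 := hc1 _ (hmem 3 (by norm_num))
  have h4 := hc1 _ (hmem 4 (by norm_num))
  have h5 := hc1 _ (hmem 5 (by norm_num))
  have h6 := hc1 _ (hmem 6 (by norm_num))
  have e0 := hadj 0 1 (by norm_num) (by norm_num) (by norm_num)
  have e1 := hadj 1 2 (by norm_num) (by norm_num) (by norm_num)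
  have e2 := hadj 2 3 (by norm_num) (by norm_num) (by norm_num)
  have e3 := hadj 3 4 (by norm_num) (by norm_num) (by norm_num)
  have e4 := hadj 4 5 (by norm_num) (by norm_num) (by norm_num)
  have e5 := hadj 5 6 (by norm_num) (by norm_num) (by norm_num)
  have e6 := hadj 6 0 (by norm_num) (by norm_num) (by norm_num)
  omega

theorem disj7 {i j : ℕ} (hi : i < 7) (hj : j < 7) (h : i + 2 ≤ j) (h' : j ≤ i + 5) :
    Disjoint (arc7 i) (arc7 j) := by
  rw [Set.disjoint_left]
  rintro p hp hp'
  have hi' : (i : ℝ) ≤ 6 := by exact_mod_cast Nat.lt_succ_iff.1 hi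
  have hj' : (j : ℝ) ≤ 6 := by exact_mod_cast Nat.lt_succ_iff.1 hj
  have hij : (i : ℝ) + 2 ≤ j := by exact_mod_cast h
  have hij' : (j : ℝ) ≤ i + 5 := by exact_mod_cast h'
  rcases meet (lam := 4) (by norm_num) (by positivity) (show 4 * (i : ℝ) / 7 < 4 * (j : ℝ) / 7 by
    linarith) (by linarith) hp hp' with h1 | h1 <;> linarith

open Classical in
/-- **Answer to Q1.**  (1) Let `F` be a finite set of unit arcs on the circle of circumference
`lam ≥ 2`, with max load `L`. If there are `L + 1` pairwise disjoint unit arcs, none of them in `F`,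
whose addition does not increase the max load, then `F` has a proper colouring with `L` colours.
(2) In fact any `L - 1` new unit arcs (disjoint or not) suffice.
(3) The added arcs must be new: for `lam = 4` there is a family `F` of max load `2` which itself
contains `3` pairwise disjoint arcs and which has no proper colouring with `2` colours. -/
theorem result :
    (∀ lam : ℝ, 2 ≤ lam → ∀ F B : Finset (Set (AddCircle lam)), (∀ A ∈ F, IsUnitArc lam A) →
      (∀ A ∈ B, IsUnitArc lam A) → Disjoint F B → B.card = maxLoad F + 1 →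
      (∀ A ∈ B, ∀ A' ∈ B, A ≠ A' → Disjoint A A') →
      maxLoad (F ∪ B) = maxLoad F → Colourable F (maxLoad F)) ∧
    (∀ lam : ℝ, 1 < lam → ∀ F B : Finset (Set (AddCircle lam)), (∀ A ∈ F, IsUnitArc lam A) →
      (∀ A ∈ B, IsUnitArc lam A) → Disjoint F B → maxLoad F ≤ B.card + 1 →
      maxLoad (F ∪ B) = maxLoad F → Colourable F (maxLoad F)) ∧
    (∃ F B : Finset (Set (AddCircle (4 : ℝ))), (∀ A ∈ F, IsUnitArc 4 A) ∧ B ⊆ F ∧
      maxLoad F = 2 ∧ B.card = 3 ∧ (∀ A ∈ B, ∀ A' ∈ B, A ≠ A' → Disjoint A A') ∧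
      ¬ Colourable F 2) := by
  have main : ∀ lam : ℝ, 1 < lam → ∀ F B : Finset (Set (AddCircle lam)),
      (∀ A ∈ F, IsUnitArc lam A) → (∀ A ∈ B, IsUnitArc lam A) → Disjoint F B →
      maxLoad F ≤ B.card + 1 → maxLoad (F ∪ B) = maxLoad F → Colourable F (maxLoad F) := by
    intro lam hlam F B hF hB hd hc hU
    refine positive hlam F B hF hB hd hc (fun p => ?_)
    rw [← hU]
    convert loadAt_le (F ∪ B) p
  refine ⟨?_, main, ?_⟩
  · intro lam hlam F B hF hB hd hc _ hU
    exact main lam (by linarith) F B hF hB hd (by omega) hU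
  · refine ⟨fam7, {arc7 0, arc7 2, arc7 4}, ?_, ?_, fam7_load, ?_, ?_, fam7_not⟩
    · intro A hA
      rw [fam7, mem_image] at hA
      obtain ⟨i, -, rfl⟩ := hA
      exact ⟨_, rfl⟩
    · intro A hA
      rw [mem_insert, mem_insert, mem_singleton] at hA
      rw [fam7, mem_image]
      rcases hA with rfl | rfl | rfl
      · exact ⟨0, by simp, rfl⟩
      · exact ⟨2, by simp, rfl⟩
      · exact ⟨4, by simp, rfl⟩
    · refine card_eq_three.2 ⟨arc7 0, arc7 2, arc7 4, ?_, ?_, ?_, rfl⟩ <;>
      · intro h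
        have := arc7_inj (by norm_num) (by norm_num) h
        omega
    · intro A hA A' hA' hne
      rw [mem_insert, mem_insert, mem_singleton] at hA hA'
      rcases hA with rfl | rfl | rfl <;> rcases hA' with rfl | rfl | rfl
      · exact absurd rfl hne
      · exact disj7 (by norm_num) (by norm_num) (by norm_num) (by norm_num)
      · exact disj7 (by norm_num) (by norm_num) (by norm_num) (by norm_num)
      · exact (disj7 (by norm_num) (by norm_num) (by norm_num) (by norm_num)).symm
      · exact absurd rfl hne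
      · exact disj7 (by norm_num) (by norm_num) (by norm_num) (by norm_num)
      · exact (disj7 (by norm_num) (by norm_num) (by norm_num) (by norm_num)).symm
      · exact (disj7 (by norm_num) (by norm_num) (by norm_num) (by norm_num)).symm
      · exact absurd rfl hne

end Pool.Agent.Results.MP_7d4b8e_co.PhantomArcs
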